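import Mathlib

set_option linter.all false

namespace Pool.Agent.Results.MP_e0e142_ag.Disconnected

open Matrix

noncomputable section

/-- the Gaussian double Markovian model `M(G,H)`. -/
def model {n : ℕ} (G H : SimpleGraph (Fin n)) : Set (Matrix (Fin n) (Fin n) ℝ) :=
  {S | S.PosDef ∧ (∀ i j, i ≠ j → ¬ G.Adj i j → S⁻¹ i j = 0) ∧
    (∀ i j, i ≠ j → ¬ H.Adj i j → S i j = 0)}

/-- the correlation model `M₁(G,H)`. -/
def corrModel {n : ℕ} (G H : SimpleGraph (Fin n)) : Set (Matrix (Fin n) (Fin n) ℝ) :=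
  {S | S ∈ model G H ∧ ∀ i, S i i = 1}

/-! ## the special matrix -/

/-- `√5` -/
def r : ℝ := Real.sqrt 5

theorem hr : r ^ 2 = 5 := Real.sq_sqrt (by norm_num)

theorem hr_lt : r < 2.25 := by
  unfold r
  rw [Real.sqrt_lt' (by norm_num)]
  norm_num

theorem lt_hr : 2 < r := by
  unfold r
  rw [Real.lt_sqrt (by norm_num)]
  norm_num

def f : Fin 11 → ℝ := ![1, (1 - r) / 2, r - 2, 0, 0, 0, 0, 0, 0, r - 2, (1 - r) / 2]

def g : Fin 11 → ℝ := ![3, (1 + r) / 2, 0, (1 - r) / 2, (r - 3) / 2, 0, 0, (r - 3) / 2, (1 - r) / 2, 0,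
  (1 + r) / 2]

def b : Fin 11 → ℝ := ![1, -(3 + r) / 4, 1, 0, 0, 0, 0, 0, 0, 0, 0]

def b' : Fin 11 → ℝ := ![1, 0, 0, 0, 0, 0, 0, 0, 0, 1, -(3 + r) / 4]

def Sg : Matrix (Fin 11) (Fin 11) ℝ := circulant f

def Om : Matrix (Fin 11) (Fin 11) ℝ := circulant g

theorem Sg_mul_Om : Sg * Om = 1 := by
  unfold Sg Om
  rw [circulant_mul, ← circulant_single_one]
  congr 1
  funext k
  have := hr
  fin_cases k <;>
  · simp [Matrix.mulVec, dotProduct, circulant_apply, Fin.sum_univ_succ, f, g, Pi.single_apply]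
    first | done | (ring_nf; rw [this]; norm_num) | nlinarith

theorem Sg_eq : Sg = ((39 - 17 * r) / 8) • (1 : Matrix (Fin 11) (Fin 11) ℝ)
    + (r - 2) • (circulant b * (circulant b)ᴴ) := by
  have h1 : (circulant b)ᴴ = circulant b' := by
    rw [conjTranspose_eq_transpose_of_trivial, transpose_circulant]
    congr 1
    funext k
    fin_cases k <;> simp [b, b']
  rw [h1, circulant_mul, ← circulant_single_one]
  unfold Sg
  rw [← circulant_smul, ← circulant_smul, ← circulant_add]
  congr 1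
  funext k
  have := hr
  have h3 : r ^ 3 = 5 * r := by rw [pow_succ, this]
  fin_cases k <;>
  · simp [Matrix.mulVec, dotProduct, circulant_apply, Fin.sum_univ_succ, f, b, b', Pi.single_apply]
    first | done | (ring_nf; try rw [h3]
                    try rw [this]
                    ring)

theorem Sg_posDef : Sg.PosDef := by
  rw [Sg_eq]
  have h1 := hr_lt
  have h2 := lt_hr
  refine PosDef.add_posSemidef ?_ ?_
  · refine PosDef.smul PosDef.one (by linarith)
  · exact (posSemidef_self_mul_conjTranspose _).smul (by linarith)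

theorem Sg_inv : Sg⁻¹ = Om := Matrix.inv_eq_right_inv Sg_mul_Om

/-! ## the linearised equations -/

def a2 : Fin 11 → ℝ := ![((3/2) + (3/2) * r), ((3/2) + (3/2) * r), ((3/2) + (-3/2) * r),
  ((1/2) + (-1/2) * r), ((-2) + (1) * r), (0), ((7/2) + (-3/2) * r), (0), ((-2) + (1) * r),
  ((1/2) + (-1/2) * r), ((3/2) + (-3/2) * r)]

def b2 : Fin 11 → ℝ := ![((9)), ((1/2) + (1/2) * r), ((-9/2) + (3/2) * r), ((3/2) + (-1/2) *
  r), ((7/2) + (-3/2) * r), ((-2) + (1) * r), ((-2) + (1) * r), ((7/2) + (-3/2) * r), ((3/2) +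
  (-1/2) * r), ((-9/2) + (3/2) * r), ((1/2) + (1/2) * r)]

def a5 : Fin 11 → ℝ := ![((-9/2) + (3/2) * r), ((-1)), ((3/2) + (-1/2) * r), ((-1)), ((-9/2) +
  (3/2) * r), (0), ((1/2) + (-1/2) * r), ((-2) + (1) * r), ((-2) + (1) * r), ((1/2) + (-1/2) *
  r), (0)]

def b5 : Fin 11 → ℝ := ![((3/2) + (-3/2) * r), ((-2) + (1) * r), ((-2) + (1) * r), ((3/2) +
  (-3/2) * r), ((1/2) + (-1/2) * r), ((-9/2) + (3/2) * r), ((-1)), ((7/2) + (-3/2) * r),
  ((-1)), ((-9/2) + (3/2) * r), ((1/2) + (-1/2) * r)]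

theorem cert (u v : Fin 11 → ℝ) (h2 : ∀ k, ∑ i, (u i * a2 (i - k) + v i * b2 (i - k)) = 0)
    (h5 : ∀ k, ∑ i, (u i * a5 (i - k) + v i * b5 (i - k)) = 0) : u 0 = 0 ∧ v 0 = 0 := by
  have e2_0 := h2 0
  have e2_1 := h2 1
  have e2_2 := h2 2
  have e2_3 := h2 3
  have e2_4 := h2 4
  have e2_5 := h2 5
  have e2_6 := h2 6
  have e2_7 := h2 7
  have e2_8 := h2 8
  have e2_9 := h2 9
  have e2_10 := h2 10
  have e5_0 := h5 0
  have e5_1 := h5 1
  have e5_2 := h5 2
  have e5_3 := h5 3
  have e5_4 := h5 4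
  have e5_5 := h5 5
  have e5_6 := h5 6
  have e5_7 := h5 7
  have e5_8 := h5 8
  have e5_9 := h5 9
  have e5_10 := h5 10
  have hr := hr
  simp [Fin.sum_univ_succ, a2, b2, a5, b5] at e2_0 e2_1 e2_2 e2_3 e2_4 e2_5 e2_6 e2_7 e2_8 e2_9 e2_10 e5_0 e5_1 e5_2 e5_3 e5_4 e5_5 e5_6 e5_7 e5_8 e5_9 e5_10
  constructor
  · linear_combination ((1/4) + (-1/4) * r) * e2_1 + ((-1) + (1/2) * r) * e2_2 + ((1/4) +
    (-1/4) * r) * e2_3 + ((-3/4) + (1/4) * r) * e2_4 + ((3/4) + (-1/4) * r) * e2_5 + ((-3/4) +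
    (1/4) * r) * e2_6 + ((1/4) + (-1/4) * r) * e2_7 + ((-1) + (1/2) * r) * e2_8 + ((1/4) +
    (-1/4) * r) * e2_9 + ((-2/5) * r) * e5_0 + ((1/10) * r) * e5_1 + ((1/2) + (1/10) * r) *
    e5_2 + ((-1) + (1/10) * r) * e5_3 + ((-1) + (1/10) * r) * e5_4 + ((1/2) + (1/10) * r) *
    e5_5 + ((1/10) * r) * e5_6 + ((-2/5) * r) * e5_7 + ((1/10) * r) * e5_8 + ((-1/4) + (-3/20)
    * r) * e5_9 + ((1/10) * r) * e5_10 + -((-9/10) * u 0 + (-3/20) * u 1 + (39/40) * u 2 +
    (-3/20) * u 3 + (-41/40) * u 4 + (19/40) * u 5 + (19/40) * u 6 + (-41/40) * u 7 + (-3/20)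
    * u 8 + (39/40) * u 9 + (-3/20) * u 10 + (33/40) * v 0 + (-57/40) * v 1 + (3/40) * v 2 +
    (6/5) * v 3 + (13/40) * v 4 + (-57/40) * v 5 + (13/40) * v 6 + (6/5) * v 7 + (3/40) * v 8
    + (-57/40) * v 9 + (33/40) * v 10) * hr
  · linear_combination ((-9/2) + (2) * r) * e2_0 + ((7/2) + (-3/2) * r) * e2_1 + ((-11/4) +
    (5/4) * r) * e2_2 + ((11/4) + (-5/4) * r) * e2_3 + ((-1/4) + (1/4) * r) * e2_4 + ((1) +
    (-1/2) * r) * e2_5 + ((1) + (-1/2) * r) * e2_6 + ((-1/4) + (1/4) * r) * e2_7 + ((11/4) +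
    (-5/4) * r) * e2_8 + ((-11/4) + (5/4) * r) * e2_9 + ((7/2) + (-3/2) * r) * e2_10 + ((-1/2)
    + (3/10) * r) * e5_0 + ((1) + (-1/5) * r) * e5_1 + ((-3/2) + (3/10) * r) * e5_2 + ((3/2) +
    (-7/10) * r) * e5_3 + ((-1/4) + (11/20) * r) * e5_4 + ((3/2) + (-7/10) * r) * e5_5 +
    ((-3/2) + (3/10) * r) * e5_6 + ((1) + (-1/5) * r) * e5_7 + ((-1/2) + (3/10) * r) * e5_8 +
    ((1/2) + (-1/5) * r) * e5_9 + ((1/2) + (-1/5) * r) * e5_10 + -((47/40) * u 0 + (47/40) * u
    1 + (-43/40) * u 2 + (1/20) * u 3 + (-3/40) * u 4 + (3/10) * u 5 + (-63/40) * u 6 + (3/10)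
    * u 7 + (-3/40) * u 8 + (1/20) * u 9 + (-43/40) * u 10 + (29/40) * v 0 + (-31/40) * v 1 +
    (21/10) * v 2 + (-33/20) * v 3 + (-61/40) * v 4 + (1/10) * v 5 + (1/10) * v 6 + (-61/40) *
    v 7 + (-33/20) * v 8 + (21/10) * v 9 + (-31/40) * v 10) * hr
theorem tab2a (t : Fin 11) : g (-t) * g (t + 1 - 2) + g (-t - 1) * g (t - 2) = a2 t := by
  have hA : -t - 1 = 10 - t := by revert t; decide
  have hB : -t = 10 - t + 1 := by revert t; decide
  rw [hA, hB]
  have := hr
  fin_cases t <;>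
  · simp [g, a2]
    first | done | (ring_nf; try rw [this]
                    try ring)

theorem tab2b (t : Fin 11) : g (-t) * g (t + 2 - 2) + g (-t - 2) * g (t - 2) = b2 t := by
  have hA : -t - 2 = 9 - t := by revert t; decide
  have hB : -t = 10 - t + 1 := by revert t; decide
  rw [hA, hB]
  have := hr
  fin_cases t <;>
  · simp [g, b2]
    first | done | (ring_nf; try rw [this]
                    try ring)

theorem tab5a (t : Fin 11) : g (-t) * g (t + 1 - 5) + g (-t - 1) * g (t - 5) = a5 t := by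
  have hA : -t - 1 = 10 - t := by revert t; decide
  have hB : -t = 10 - t + 1 := by revert t; decide
  rw [hA, hB]
  have := hr
  fin_cases t <;>
  · simp [g, a5]
    first | done | (ring_nf; try rw [this]
                    try ring)

theorem tab5b (t : Fin 11) : g (-t) * g (t + 2 - 5) + g (-t - 2) * g (t - 5) = b5 t := by
  have hA : -t - 2 = 9 - t := by revert t; decide
  have hB : -t = 10 - t + 1 := by revert t; decide
  rw [hA, hB]
  have := hr
  fin_cases t <;>
  · simp [g, b5]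
    first | done | (ring_nf; try rw [this]
                    try ring)

/-- parameters: the entries at cyclic distance `1` and `2`. -/
abbrev Par : Type := (Fin 11 → ℝ) × (Fin 11 → ℝ)

def iota (p : Par) : Matrix (Fin 11) (Fin 11) ℝ := fun i j =>
  (if i + 1 = j then p.1 i else 0) + (if j + 1 = i then p.1 j else 0)
    + ((if i + 2 = j then p.2 i else 0) + (if j + 2 = i then p.2 j else 0))

theorem sandwich (A B : Matrix (Fin 11) (Fin 11) ℝ) (p : Par) (k l : Fin 11) :
    (A * iota p * B) k l = ∑ i, (p.1 i * (A k i * B (i + 1) l + A k (i + 1) * B i l)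
      + p.2 i * (A k i * B (i + 2) l + A k (i + 2) * B i l)) := by
  rw [Matrix.mul_assoc, Matrix.mul_apply]
  simp only [Matrix.mul_apply, Finset.mul_sum, iota]
  have e1 : ∀ i j : Fin 11, A k i * (((if i + 1 = j then p.1 i else 0)
      + (if j + 1 = i then p.1 j else 0) + ((if i + 2 = j then p.2 i else 0)
      + (if j + 2 = i then p.2 j else 0))) * B j l)
      = (if i + 1 = j then p.1 i * (A k i * B j l) else 0)
      + (if j + 1 = i then p.1 j * (A k i * B j l) else 0)
      + ((if i + 2 = j then p.2 i * (A k i * B j l) else 0)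
      + (if j + 2 = i then p.2 j * (A k i * B j l) else 0)) := by
    intro i j
    split_ifs <;> ring
  simp only [e1, Finset.sum_add_distrib]
  have s1 : ∑ i, ∑ j, (if i + 1 = j then p.1 i * (A k i * B j l) else 0)
      = ∑ i, p.1 i * (A k i * B (i + 1) l) := by
    refine Finset.sum_congr rfl fun i _ => ?_
    rw [Finset.sum_ite_eq]; simp
  have s2 : ∑ i, ∑ j, (if j + 1 = i then p.1 j * (A k i * B j l) else 0)
      = ∑ i, p.1 i * (A k (i + 1) * B i l) := by
    rw [Finset.sum_comm]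
    refine Finset.sum_congr rfl fun i _ => ?_
    rw [Finset.sum_ite_eq]; simp
  have s3 : ∑ i, ∑ j, (if i + 2 = j then p.2 i * (A k i * B j l) else 0)
      = ∑ i, p.2 i * (A k i * B (i + 2) l) := by
    refine Finset.sum_congr rfl fun i _ => ?_
    rw [Finset.sum_ite_eq]; simp
  have s4 : ∑ i, ∑ j, (if j + 2 = i then p.2 j * (A k i * B j l) else 0)
      = ∑ i, p.2 i * (A k (i + 2) * B i l) := by
    rw [Finset.sum_comm]
    refine Finset.sum_congr rfl fun i _ => ?_
    rw [Finset.sum_ite_eq]; simp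
  rw [s1, s2, s3, s4]
  simp only [mul_add, Finset.sum_add_distrib]

/-- the linearised equations have only the zero solution. -/
theorem kernel (p : Par) (h2 : ∀ k, (Om * iota p * Om) k (k + 2) = 0)
    (h5 : ∀ k, (Om * iota p * Om) k (k + 5) = 0) : p = 0 := by
  have k2 : ∀ k, ∑ i, (p.1 i * a2 (i - k) + p.2 i * b2 (i - k)) = 0 := by
    intro k
    rw [← h2 k, sandwich]
    refine Finset.sum_congr rfl fun i _ => ?_
    rw [← tab2a, ← tab2b]
    unfold Om
    simp only [circulant_apply]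
    rw [show -(i - k) = k - i by abel, show i - k + 1 - 2 = i + 1 - (k + 2) by abel,
      show i - k + 2 - 2 = i + 2 - (k + 2) by abel, show k - i - 1 = k - (i + 1) by abel,
      show k - i - 2 = k - (i + 2) by abel, show i - k - 2 = i - (k + 2) by abel]
  have k5 : ∀ k, ∑ i, (p.1 i * a5 (i - k) + p.2 i * b5 (i - k)) = 0 := by
    intro k
    rw [← h5 k, sandwich]
    refine Finset.sum_congr rfl fun i _ => ?_
    rw [← tab5a, ← tab5b]
    unfold Om
    simp only [circulant_apply]
    rw [show -(i - k) = k - i by abel, show i - k + 1 - 5 = i + 1 - (k + 5) by abel,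
      show i - k + 2 - 5 = i + 2 - (k + 5) by abel, show k - i - 1 = k - (i + 1) by abel,
      show k - i - 2 = k - (i + 2) by abel, show i - k - 5 = i - (k + 5) by abel]
  have key : ∀ j, p.1 j = 0 ∧ p.2 j = 0 := by
    intro j
    have := cert (fun i => p.1 (i + j)) (fun i => p.2 (i + j)) (by
      intro k
      rw [← k2 (k + j)]
      rw [← Equiv.sum_comp (Equiv.addRight j) (fun i => p.1 i * a2 (i - (k + j))
        + p.2 i * b2 (i - (k + j)))]
      refine Finset.sum_congr rfl fun i _ => ?_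
      simp only [Equiv.coe_addRight]
      rw [show i + j - (k + j) = i - k by abel]) (by
      intro k
      rw [← k5 (k + j)]
      rw [← Equiv.sum_comp (Equiv.addRight j) (fun i => p.1 i * a5 (i - (k + j))
        + p.2 i * b5 (i - (k + j)))]
      refine Finset.sum_congr rfl fun i _ => ?_
      simp only [Equiv.coe_addRight]
      rw [show i + j - (k + j) = i - k by abel])
    simpa using this
  ext j
  · exact (key j).1
  · exact (key j).2

/-! ## the graphs -/

/-- distances `1, 3, 4`. -/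
def G : SimpleGraph (Fin 11) where
  Adj i j := i - j = 1 ∨ i - j = 10 ∨ i - j = 3 ∨ i - j = 8 ∨ i - j = 4 ∨ i - j = 7
  symm := ⟨by decide⟩
  loopless := ⟨by decide⟩

/-- distances `1, 2`. -/
def H : SimpleGraph (Fin 11) where
  Adj i j := i - j = 1 ∨ i - j = 10 ∨ i - j = 2 ∨ i - j = 9
  symm := ⟨by decide⟩
  loopless := ⟨by decide⟩

theorem G2 (k : Fin 11) : k ≠ k + 2 ∧ ¬ G.Adj k (k + 2) := by
  unfold G; revert k; decide

theorem G5 (k : Fin 11) : k ≠ k + 5 ∧ ¬ G.Adj k (k + 5) := by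
  unfold G; revert k; decide

theorem Sg_mem : Sg ∈ corrModel G H := by
  refine ⟨⟨Sg_posDef, ?_, ?_⟩, ?_⟩
  · intro i j hij h
    rw [Sg_inv]
    unfold Om
    rw [circulant_apply]
    have : ∀ t : Fin 11, t ≠ 0 → ¬ (t = 1 ∨ t = 10 ∨ t = 3 ∨ t = 8 ∨ t = 4 ∨ t = 7) → g t = 0 := by
      intro t
      fin_cases t <;> simp [g]
    exact this _ (sub_ne_zero.mpr hij) h
  · intro i j hij h
    unfold Sg
    rw [circulant_apply]
    have : ∀ t : Fin 11, t ≠ 0 → ¬ (t = 1 ∨ t = 10 ∨ t = 2 ∨ t = 9) → f t = 0 := by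
      intro t
      fin_cases t <;> simp [f]
    exact this _ (sub_ne_zero.mpr hij) h
  · intro i
    unfold Sg
    rw [circulant_apply, sub_self]
    rfl

theorem one_mem {n : ℕ} (G H : SimpleGraph (Fin n)) : (1 : Matrix (Fin n) (Fin n) ℝ) ∈
    corrModel G H := by
  refine ⟨⟨PosDef.one, ?_, ?_⟩, ?_⟩
  · intro i j hij _
    rw [inv_one, Matrix.one_apply_ne hij]
  · intro i j hij _
    rw [Matrix.one_apply_ne hij]
  · intro i
    exact Matrix.one_apply_eq i

theorem Sg_ne_one : Sg ≠ 1 := by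
  intro h
  have h1 := congrFun (congrFun h 1) 0
  rw [Matrix.one_apply_ne (by decide)] at h1
  unfold Sg at h1
  rw [circulant_apply] at h1
  have : f (1 - 0) = (1 - r) / 2 := rfl
  rw [this] at h1
  have := lt_hr
  linarith

/-- the coordinates of a matrix. -/
def kap (S : Matrix (Fin 11) (Fin 11) ℝ) : Par := (fun i => S i (i + 1), fun i => S i (i + 2))

theorem recover {S : Matrix (Fin 11) (Fin 11) ℝ} (hS : S ∈ corrModel G H) :
    S = Sg + iota (kap (S - Sg)) := by
  have hsym : ∀ i j, S i j = S j i := by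
    intro i j
    have := hS.1.1.isHermitian
    have h1 := congrFun (congrFun this i) j
    simpa using h1.symm
  have hsym' : ∀ i j, Sg i j = Sg j i := by
    intro i j
    have := Sg_posDef.isHermitian
    have h1 := congrFun (congrFun this i) j
    simpa using h1.symm
  have hz := Sg_mem.1.2.2
  have hz' := hS.1.2.2
  have hd := Sg_mem.2
  have hd' := hS.2
  ext i j
  rw [Matrix.add_apply]
  unfold iota kap
  simp only [Matrix.sub_apply]
  by_cases h0 : i = j
  · subst h0
    have a1 : i + 1 ≠ i := by revert i; decide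
    have a2 : i + 2 ≠ i := by revert i; decide
    rw [if_neg a1, if_neg a2, hd, hd']
    simp
  by_cases h1 : i + 1 = j
  · subst h1
    have a1 : i + 1 + 1 ≠ i := by revert i; decide
    have a2 : i + 2 ≠ i + 1 := by revert i; decide
    have a3 : i + 1 + 2 ≠ i := by revert i; decide
    rw [if_pos rfl, if_neg a1, if_neg a2, if_neg a3]
    ring
  by_cases h2 : j + 1 = i
  · subst h2
    have a1 : j + 1 + 1 ≠ j := by revert j; decide
    have a2 : j + 2 ≠ j + 1 := by revert j; decide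
    have a3 : j + 1 + 2 ≠ j := by revert j; decide
    rw [if_neg a1, if_pos rfl, if_neg a3, if_neg a2, hsym (j + 1) j, hsym' (j + 1) j]
    ring
  by_cases h3 : i + 2 = j
  · subst h3
    have a1 : i + 1 ≠ i + 2 := by revert i; decide
    have a2 : i + 2 + 1 ≠ i := by revert i; decide
    have a3 : i + 2 + 2 ≠ i := by revert i; decide
    rw [if_neg a1, if_neg a2, if_pos rfl, if_neg a3]
    ring
  by_cases h4 : j + 2 = i
  · subst h4
    have a1 : j + 2 + 1 ≠ j := by revert j; decide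
    have a2 : j + 1 ≠ j + 2 := by revert j; decide
    have a3 : j + 2 + 2 ≠ j := by revert j; decide
    rw [if_neg a1, if_neg a2, if_neg a3, if_pos rfl, hsym (j + 2) j, hsym' (j + 2) j]
    ring
  · rw [if_neg h1, if_neg h2, if_neg h3, if_neg h4]
    have hH : ¬ H.Adj i j := by
      unfold H
      revert h0 h1 h2 h3 h4
      revert i j
      decide
    rw [hz i j h0 hH, hz' i j h0 hH]
    simp
/-! ## isolatedness -/

section iso

attribute [local instance] Matrix.linftyOpNormedRing Matrix.linftyOpNormedAlgebra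

def iotaL : Par →ₗ[ℝ] Matrix (Fin 11) (Fin 11) ℝ where
  toFun := iota
  map_add' p q := by
    ext i j
    simp only [iota, Matrix.add_apply, Prod.fst_add, Prod.snd_add, Pi.add_apply]
    split_ifs <;> ring
  map_smul' c p := by
    ext i j
    simp only [iota, Matrix.smul_apply, Prod.smul_fst, Prod.smul_snd, Pi.smul_apply, smul_eq_mul,
      RingHom.id_apply]
    split_ifs <;> ring

/-- the entries which have to vanish. -/
def pr : Matrix (Fin 11) (Fin 11) ℝ →ₗ[ℝ] Par where
  toFun T := (fun k => T k (k + 2), fun k => T k (k + 5))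
  map_add' S T := rfl
  map_smul' c T := rfl

def unitSg : (Matrix (Fin 11) (Fin 11) ℝ)ˣ :=
  ⟨Sg, Om, Sg_mul_Om, mul_eq_one_comm.mp Sg_mul_Om⟩

theorem isolated_par : ∀ᶠ p : Par in nhdsWithin 0 {0}ᶜ,
    pr (Ring.inverse (Sg + iota p)) ≠ 0 := by
  let R := Matrix (Fin 11) (Fin 11) ℝ
  let iC : Par →L[ℝ] R := LinearMap.toContinuousLinearMap iotaL
  let pC : R →L[ℝ] Par := LinearMap.toContinuousLinearMap pr
  haveI : CompleteSpace R := FiniteDimensional.complete ℝ R
  have h1 : HasFDerivAt (fun p : Par => Sg + iC p) iC 0 := iC.hasFDerivAt.const_add Sg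
  have h2 : HasFDerivAt (Ring.inverse : R → R)
      (-ContinuousLinearMap.mulLeftRight ℝ R Om Om) (Sg + iC 0) := by
    rw [map_zero, add_zero]
    exact hasFDerivAt_ringInverse (𝕜 := ℝ) unitSg
  have h3 := pC.hasFDerivAt.comp (0 : Par) (h2.comp (0 : Par) h1)
  have h4 := h3.eventually_ne (c := (0 : Par)) ?_
  · exact h4
  · have hinj : Function.Injective
        (pC.comp ((-ContinuousLinearMap.mulLeftRight ℝ R Om Om).comp iC)).toLinearMap := by
      rw [injective_iff_map_eq_zero]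
      intro p hp
      have hp' : pr (-(Om * iota p * Om)) = 0 := hp
      rw [map_neg, neg_eq_zero] at hp'
      apply kernel p
      · intro k
        exact congrFun (congrArg Prod.fst hp') k
      · intro k
        exact congrFun (congrArg Prod.snd hp') k
    obtain ⟨K, -, hK⟩ := (LinearMap.injective_iff_antilipschitz _).mp hinj
    exact ⟨K, hK⟩

end iso

theorem isolated : ∀ᶠ S : Matrix (Fin 11) (Fin 11) ℝ in nhds Sg, S ∈ corrModel G H → S = Sg := by
  have h1 := eventually_nhdsWithin_iff.mp isolated_par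
  have hcont : Continuous (fun S : Matrix (Fin 11) (Fin 11) ℝ => kap (S - Sg)) := by
    unfold kap
    fun_prop
  have h2 : Filter.Tendsto (fun S : Matrix (Fin 11) (Fin 11) ℝ => kap (S - Sg)) (nhds Sg)
      (nhds 0) := by
    have := hcont.tendsto Sg
    have e : kap (Sg - Sg) = 0 := by rw [sub_self]; rfl
    rwa [e] at this
  filter_upwards [h2.eventually h1] with S hS hmem
  have h3 := recover hmem
  by_cases h0 : kap (S - Sg) = 0
  · rw [h0] at h3
    rw [h3]
    have : iota 0 = 0 := iotaL.map_zero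
    rw [this, add_zero]
  · exfalso
    apply hS h0
    rw [← h3, ← Matrix.nonsing_inv_eq_ringInverse]
    ext k
    · exact hmem.1.2.1 k (k + 2) (G2 k).1 (G2 k).2
    · exact hmem.1.2.1 k (k + 5) (G5 k).1 (G5 k).2

theorem corr_not_preconnected : ¬ IsPreconnected (corrModel G H) := by
  intro hpre
  obtain ⟨U, hU, hUo, hUm⟩ := eventually_nhds_iff.mp isolated
  obtain ⟨S, hS, hSU, hSV⟩ := hpre U {Sg}ᶜ hUo isOpen_compl_singleton (fun S hS => by
      by_cases h : S = Sg
      · left; rw [h]; exact hUm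
      · right; exact h)
    ⟨Sg, Sg_mem, hUm⟩ ⟨1, one_mem G H, fun h => Sg_ne_one h.symm⟩
  exact hSV (hU S hSU hS)

/-! ## from correlation matrices to all covariance matrices -/

/-- normalisation of a covariance matrix. -/
def nrm {n : ℕ} (S : Matrix (Fin n) (Fin n) ℝ) : Matrix (Fin n) (Fin n) ℝ :=
  diagonal (fun i => (Real.sqrt (S i i))⁻¹) * S * diagonal (fun i => (Real.sqrt (S i i))⁻¹)

theorem nrm_apply {n : ℕ} (S : Matrix (Fin n) (Fin n) ℝ) (i j : Fin n) :
    nrm S i j = (Real.sqrt (S i i))⁻¹ * S i j * (Real.sqrt (S j j))⁻¹ := by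
  unfold nrm
  rw [mul_diagonal, diagonal_mul]

theorem nrm_mem {n : ℕ} {G H : SimpleGraph (Fin n)} {S : Matrix (Fin n) (Fin n) ℝ}
    (hS : S ∈ model G H) : nrm S ∈ corrModel G H := by
  obtain ⟨h1, h2, h3⟩ := hS
  have hpos : ∀ i, 0 < S i i := fun i => h1.diag_pos
  have hsq : ∀ i, Real.sqrt (S i i) ≠ 0 := fun i => (Real.sqrt_pos.mpr (hpos i)).ne'
  have hD : diagonal (fun i => (Real.sqrt (S i i))⁻¹) * diagonal (fun i => Real.sqrt (S i i))
      = (1 : Matrix (Fin n) (Fin n) ℝ) := by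
    rw [diagonal_mul_diagonal, ← diagonal_one]
    congr 1
    funext i
    exact inv_mul_cancel₀ (hsq i)
  have hinv : (nrm S)⁻¹ = diagonal (fun i => Real.sqrt (S i i)) * S⁻¹
      * diagonal (fun i => Real.sqrt (S i i)) := by
    apply Matrix.inv_eq_right_inv
    unfold nrm
    have hSS : S * S⁻¹ = 1 := Matrix.mul_nonsing_inv _ ((Matrix.isUnit_iff_isUnit_det _).mp h1.isUnit)
    calc diagonal (fun i => (Real.sqrt (S i i))⁻¹) * S * diagonal (fun i => (Real.sqrt (S i i))⁻¹)
          * (diagonal (fun i => Real.sqrt (S i i)) * S⁻¹ * diagonal (fun i => Real.sqrt (S i i)))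
        = diagonal (fun i => (Real.sqrt (S i i))⁻¹) * S
          * (diagonal (fun i => (Real.sqrt (S i i))⁻¹) * diagonal (fun i => Real.sqrt (S i i)))
          * S⁻¹ * diagonal (fun i => Real.sqrt (S i i)) := by simp only [Matrix.mul_assoc]
      _ = 1 := by rw [hD, Matrix.mul_one, Matrix.mul_assoc _ S, hSS, Matrix.mul_one, hD]
  refine ⟨⟨?_, ?_, ?_⟩, ?_⟩
  · have h4 := h1.conjTranspose_mul_mul_same (B := diagonal (fun i => (Real.sqrt (S i i))⁻¹)) ?_
    · rw [diagonal_conjTranspose] at h4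
      exact h4
    · intro x y hxy
      have := congrArg (fun z => (diagonal (fun i => Real.sqrt (S i i))) *ᵥ z) hxy
      simp only [mulVec_mulVec] at this
      have hD' : diagonal (fun i => Real.sqrt (S i i)) * diagonal (fun i => (Real.sqrt (S i i))⁻¹)
          = (1 : Matrix (Fin n) (Fin n) ℝ) := mul_eq_one_comm.mp hD
      rwa [hD', one_mulVec, one_mulVec] at this
  · intro i j hij h
    rw [hinv, mul_diagonal, diagonal_mul, h2 i j hij h]
    ring
  · intro i j hij h
    rw [nrm_apply, h3 i j hij h]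
    ring
  · intro i
    rw [nrm_apply]
    have := Real.mul_self_sqrt (hpos i).le
    have h5 := hsq i
    field_simp
    nlinarith [Real.sq_sqrt (hpos i).le]

theorem nrm_eq {n : ℕ} {G H : SimpleGraph (Fin n)} {S : Matrix (Fin n) (Fin n) ℝ}
    (hS : S ∈ corrModel G H) : nrm S = S := by
  ext i j
  rw [nrm_apply, hS.2, hS.2]
  simp

theorem corr_of_model {n : ℕ} {G H : SimpleGraph (Fin n)} (h : IsPreconnected (model G H)) :
    IsPreconnected (corrModel G H) := by
  have h1 : nrm '' (model G H) = corrModel G H := by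
    apply Set.Subset.antisymm
    · rintro _ ⟨S, hS, rfl⟩
      exact nrm_mem hS
    · intro S hS
      exact ⟨S, hS.1, nrm_eq hS⟩
  rw [← h1]
  apply h.image
  intro S hS
  apply ContinuousAt.continuousWithinAt
  have hpos : ∀ i, 0 < S i i := fun i => hS.1.diag_pos
  have hsq : ∀ i, Real.sqrt (S i i) ≠ 0 := fun i => (Real.sqrt_pos.mpr (hpos i)).ne'
  rw [show (nrm : Matrix (Fin n) (Fin n) ℝ → Matrix (Fin n) (Fin n) ℝ)
    = fun S i j => (Real.sqrt (S i i))⁻¹ * S i j * (Real.sqrt (S j j))⁻¹ from by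
      funext S i j; exact nrm_apply S i j]
  refine continuousAt_pi.mpr fun i => continuousAt_pi.mpr fun j => ?_
  have hc : ∀ a b : Fin n, ContinuousAt (fun S : Matrix (Fin n) (Fin n) ℝ => S a b) S :=
    fun a b => (continuous_apply_apply a b).continuousAt
  exact (((hc i i).sqrt.inv₀ (hsq i)).mul (hc i j)).mul ((hc j j).sqrt.inv₀ (hsq j))

/-- **Double Markovian models need not be connected**: there are graphs `G, H` on `11` vertices for
which neither `M₁(G,H)` nor `M(G,H)` is connected (both contain the identity matrix, so they are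
nonempty; `IsPreconnected` is connectedness without the nonemptiness requirement). -/
theorem result : ∃ G H : SimpleGraph (Fin 11),
    ¬ IsPreconnected (corrModel G H) ∧ ¬ IsPreconnected (model G H) :=
  ⟨G, H, corr_not_preconnected, fun h => corr_not_preconnected (corr_of_model h)⟩

end

end Pool.Agent.Results.MP_e0e142_ag.Disconnected
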